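import Mathlib
import Pool.Agent.Helper41.CF.Uni
import Pool.Agent.Helper41.CF.Cyc

/-!
Let `n ≥ 5` be prime, `L/F` a finite Galois extension of degree prime to `n` which contains a
primitive `n`-th root of unity `z`, and `A` a central simple `F`-algebra of degree `n` such that
`L ⊗ A` is the symbol algebra generated by `x`, `y`, `x ^ n = a`, `y ^ n = b`, `x y = z y x`.
Let `V` be the subgroup of `Lˣ / Lˣⁿ` generated by `a` and `b`, and assume that

* `V` is stable under `Gal(L/F)`;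
* the elements `g` with `g z = z` act on `V` through a cyclic group of order 1, 2, 3, 4 or 6:
  they act as the powers of some `σ` whose `m`-th power acts trivially, `m ∈ {1, 2, 3, 4, 6}`;
* if `g z ≠ z` then `g z = z⁻¹` and `g²` acts trivially on `V`.

Then `A` contains an element `u` outside `F` such that `u ^ n` lies in `F` and is not zero. If `A`
is a division algebra, it contains a cyclic Galois extension `K` of `F` of degree `n` which is
normalised by `u`: `A` is the cyclic algebra `(K/F, conjugation by u, u ^ n)`.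
-/

open TensorProduct

universe u

theorem Pool.Agent.Helper76.SP.gen
    {F L A : Type u} [Field F] [Field L] [Algebra F L] [Module.Finite F L] [IsGalois F L]
    [Ring A] [Algebra F A] [IsSimpleRing A] [Algebra.IsCentral F A] [Module.Finite F A]
    {n : ℕ} (hn : n.Prime) (h5 : 5 ≤ n) (hL : ¬ n ∣ Module.finrank F L)
    (hA : Module.finrank F A = n ^ 2) {z : L} (hz : IsPrimitiveRoot z n)
    {a b : L} (ha : a ≠ 0) (hb : b ≠ 0) {x y : L ⊗[F] A}
    (hx : x ^ n = algebraMap L (L ⊗[F] A) a) (hy : y ^ n = algebraMap L (L ⊗[F] A) b)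
    (hxy : x * y = z • (y * x))
    (hV : ∀ g : L ≃ₐ[F] L, (∃ (i j : ℤ) (c : L), g a = a ^ i * b ^ j * c ^ n) ∧
      ∃ (i j : ℤ) (c : L), g b = a ^ i * b ^ j * c ^ n)
    (σ : L ≃ₐ[F] L) (hσ : σ z = z) (m : ℕ) (hm : m = 1 ∨ m = 2 ∨ m = 3 ∨ m = 4 ∨ m = 6)
    (hσm : (∃ c : L, (σ ^ m) a = a * c ^ n) ∧ ∃ c : L, (σ ^ m) b = b * c ^ n)
    (hrot : ∀ g : L ≃ₐ[F] L, g z = z → ∃ k : ℕ,
      (∃ c : L, g a = (σ ^ k) a * c ^ n) ∧ ∃ c : L, g b = (σ ^ k) b * c ^ n)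
    (href : ∀ g : L ≃ₐ[F] L, g z ≠ z → g z = z⁻¹ ∧
      (∃ c : L, g (g a) = a * c ^ n) ∧ ∃ c : L, g (g b) = b * c ^ n) :
    ∃ u : A, (∀ c : F, u ≠ algebraMap F A c) ∧ (∃ c : F, c ≠ 0 ∧ u ^ n = algebraMap F A c) ∧
      ((∀ t : A, t ≠ 0 → IsUnit t) → ∃ (K : Subalgebra F A) (hK : IsField K),
        Module.finrank F K = n ∧ (letI := hK.toField; IsGalois F K ∧ IsCyclic (K ≃ₐ[F] K)) ∧
        ∀ t ∈ K, ∃ t' ∈ K, u * t = t' * u) := by
  have hnF : (n : F) ≠ 0 := by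
    have : NeZero n := ⟨hn.ne_zero⟩
    intro h
    have h1 : (n : L) = 0 := by rw [← map_natCast (algebraMap F L), h, map_zero]
    have h2 : NeZero ((n : ℕ) : L) := hz.neZero'
    exact h2.out h1
  obtain ⟨a, rfl⟩ : ∃ a' : Lˣ, (a' : L) = a := ⟨Units.mk0 a ha, rfl⟩
  obtain ⟨b, rfl⟩ : ∃ b' : Lˣ, (b' : L) = b := ⟨Units.mk0 b hb, rfl⟩
  -- congruences modulo `n`-th powers for units
  have np : ∀ (u v : Lˣ) (c : L), (u : L) = v * c ^ n → Pool.Agent.Helper41.CF.NP n u v := by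
    intro u v c h
    have hc : c ≠ 0 := by
      rintro rfl
      rw [zero_pow hn.pos.ne', mul_zero] at h
      exact u.ne_zero h
    exact ⟨Units.mk0 c hc, Units.ext h⟩
  have npv : ∀ (u : Lˣ) (i j : ℤ) (c : L), (u : L) = (a : L) ^ i * (b : L) ^ j * c ^ n →
      Pool.Agent.Helper41.CF.NP n u (Pool.Agent.Helper41.CF.ev a b ![i, j]) := by
    intro u i j c h
    refine np _ _ c ?_
    rw [h]
    simp [Pool.Agent.Helper41.CF.ev]
  obtain ⟨u, hu, c, hc0, hc⟩ := Pool.Agent.Helper41.CF.mainUni hn h5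
    ((Nat.Prime.coprime_iff_not_dvd hn).mpr hL).symm hA hz (a := a) (b := b) (x := x) (y := y)
    ⟨hx, hy, hxy⟩
    (fun g => by
      obtain ⟨⟨i, j, c, h1⟩, k, l, d, h2⟩ := hV g
      exact ⟨⟨_, npv _ i j c h1⟩, ⟨_, npv _ k l d h2⟩⟩)
    σ hσ hm
    (by
      obtain ⟨⟨c, h1⟩, d, h2⟩ := hσm
      exact ⟨np _ _ c h1, np _ _ d h2⟩)
    (fun g hg => by
      obtain ⟨k, ⟨c, h1⟩, d, h2⟩ := hrot g hg
      exact ⟨k, np _ _ c h1, np _ _ d h2⟩)
    (fun g hg => by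
      obtain ⟨h0, ⟨c, h1⟩, d, h2⟩ := href g hg
      exact ⟨h0, np _ _ c h1, np _ _ d h2⟩)
  exact ⟨u, hu, ⟨c, hc0, hc⟩, fun hdiv =>
    Pool.Agent.Helper41.CF.cyclic_of_central hn hnF hA hu ⟨c, hc⟩ hdiv⟩
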